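import Pool.Agent.Helper53.FM.Defs

/-! FM-2: `le_pairs_dens_bal`, `sum_tD_le` (MP_12a1af_nt) -/

set_option autoImplicit false

namespace Pool.Agent.Helper12.FM

open Finset hiding dens
open Pool.Agent.Helper53.FM
open Pool.Agent.Helper48.FB (dens)

/-- FM-A2 -/
theorem le_pairs_dens_bal {b L n : ℕ} (hL : 100 ≤ L) (hb : 4 * b ≤ n) (hn : 16 * L < n + 1) :
    4 * (L : ℝ) - 2 ≤ ∑ x ∈ (range n).filter (fun x => x < n - x ∧ n ≤ 4 * x),
      (if b ≤ x then dens L x else 0) * (if b ≤ n - x then dens L (n - x) else 0) := by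
  have hn1 : (0 : ℝ) < (n : ℝ) + 1 := by positivity
  have hLn : (16 * L : ℝ) < (n : ℝ) + 1 := by exact_mod_cast hn
  set c : ℝ := 16 * L / ((n : ℝ) + 1) with hc
  have hc0 : 0 ≤ c := by positivity
  have hc1 : c ≤ 1 := by rw [hc, div_le_one hn1]; exact hLn.le
  have hd : ∀ x, x ≤ n → √c ≤ dens L x := by
    intro x hx
    unfold dens
    refine le_min (Real.sqrt_le_one.2 hc1) ?_
    apply Real.sqrt_le_sqrt
    rw [hc]
    have hx' : (x : ℝ) ≤ n := by exact_mod_cast hx
    gcongr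
  have h1 : ∀ x ∈ (range n).filter (fun x => x < n - x ∧ n ≤ 4 * x), c ≤
      (if b ≤ x then dens L x else 0) * (if b ≤ n - x then dens L (n - x) else 0) := by
    intro x hx
    obtain ⟨hx1, hx2, hx3⟩ := mem_filter.1 hx
    have hx4 := mem_range.1 hx1
    rw [if_pos (by omega), if_pos (by omega)]
    have h2 := hd x (by omega)
    have h3 := hd (n - x) (by omega)
    calc c = √c * √c := (Real.mul_self_sqrt hc0).symm
      _ ≤ _ := mul_le_mul h2 h3 (Real.sqrt_nonneg _) ((Real.sqrt_nonneg _).trans h2)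
  have h2 := Finset.card_nsmul_le_sum _ _ _ h1
  refine le_trans ?_ h2
  rw [nsmul_eq_mul]
  have h3 : Ico ((n + 3) / 4) ((n + 1) / 2) ⊆
      (range n).filter (fun x => x < n - x ∧ n ≤ 4 * x) := by
    intro x hx
    rw [mem_Ico] at hx
    rw [mem_filter, mem_range]
    omega
  have h4 := card_le_card h3
  rw [Nat.card_Ico] at h4
  have h5 : n ≤ 4 * ((range n).filter (fun x => x < n - x ∧ n ≤ 4 * x)).card + 3 := by omega
  have h6 : (n : ℝ) ≤ 4 * (((range n).filter (fun x => x < n - x ∧ n ≤ 4 * x)).card : ℝ) + 3 := by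
    exact_mod_cast h5
  have h7 : ((n : ℝ) - 3) / 4 ≤
      (((range n).filter (fun x => x < n - x ∧ n ≤ 4 * x)).card : ℝ) := by linarith
  refine le_trans ?_ (mul_le_mul_of_nonneg_right h7 hc0)
  have h8 : ((n : ℝ) - 3) / 4 * c = 4 * L - c := by
    rw [hc]
    field_simp
    ring
  rw [h8]
  linarith

theorem sum_div_le (M k : ℕ) : ∑ i ∈ Ico 1 (2 ^ k), M / i ≤ M * k := by
  induction k with
  | zero => simp
  | succ k ih =>
    rw [← sum_Ico_consecutive _ (Nat.one_le_two_pow : 1 ≤ 2 ^ k)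
      (Nat.pow_le_pow_right (by norm_num) (Nat.le_succ k))]
    have h1 : ∑ i ∈ Ico (2 ^ k) (2 ^ (k + 1)), M / i ≤ M := by
      calc ∑ i ∈ Ico (2 ^ k) (2 ^ (k + 1)), M / i
          ≤ ∑ _i ∈ Ico (2 ^ k) (2 ^ (k + 1)), M / 2 ^ k := by
            refine sum_le_sum fun i hi => ?_
            exact Nat.div_le_div_left (mem_Ico.1 hi).1 (by positivity)
        _ = 2 ^ k * (M / 2 ^ k) := by
            rw [sum_const, Nat.card_Ico, smul_eq_mul]
            congr 1
            rw [pow_succ]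
            omega
        _ ≤ M := Nat.mul_div_le _ _
    calc _ ≤ M * k + M := add_le_add ih h1
      _ = M * (k + 1) := by ring

/-- FM-D0 (harmonic sum). -/
theorem sum_tD_le (a e D : ℕ) (he : 1 ≤ e) :
    ∑ d ∈ range D, tD a e d ≤ 44 * a * (Nat.log 2 D + 1) + D := by
  unfold tD
  rw [sum_add_distrib, sum_const, card_range, smul_eq_mul, mul_one]
  refine Nat.add_le_add_right ?_ D
  refine le_trans ?_ (sum_div_le (44 * a) (Nat.log 2 D + 1))
  have h1 : ∑ d ∈ range D, 44 * a / (e + d) ≤ ∑ d ∈ range D, 44 * a / (d + 1) :=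
    sum_le_sum fun d _ => Nat.div_le_div_left (by omega) (by omega)
  refine h1.trans ?_
  have h2 : ∑ d ∈ range D, 44 * a / (d + 1) = ∑ i ∈ Ico 1 (D + 1), 44 * a / i := by
    rw [sum_Ico_eq_sum_range, Nat.add_sub_cancel]
    exact sum_congr rfl fun d _ => by rw [add_comm]
  rw [h2]
  refine sum_le_sum_of_subset ?_
  intro i hi
  rw [mem_Ico] at hi ⊢
  have := Nat.lt_pow_succ_log_self (b := 2) (by norm_num) D
  omega

end Pool.Agent.Helper12.FM
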